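import Pool.Agent.Helper36.LM.Mat

/-!
# LM-M2: adjacency and the rank of the bordered matrix
-/

set_option autoImplicit false

namespace Pool.Agent.Helper36.LM

open Module Finset Matrix

variable {K D ι : Type} [Field K] [Fintype D] [DecidableEq D] [Fintype ι]

theorem m2_T_apply (a b : ι → D → K) (x : ι → K)
    (h : ∀ i (α β : K), α • a i + β • b i = 0 → α = 0 ∧ β = 0) (φ φ' : D → K) :
    (conf a b x h).T φ φ' = φ ⬝ᵥ (tmat a b x *ᵥ φ') := by
  rw [dot_tmat]
  change (∑ i, x i • wed (fnl (a i)) (fnl (b i))) φ φ' = _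
  rw [LinearMap.sum_apply, LinearMap.sum_apply]
  refine Finset.sum_congr rfl fun i _ => ?_
  rw [LinearMap.smul_apply, LinearMap.smul_apply, wed_apply, smul_eq_mul]
  rfl

theorem m2_skew (C : Conf K (D → K) ι) (φ φ' : D → K) : C.T φ φ' = -C.T φ' φ := by
  have h := C.alt (φ + φ')
  simp only [map_add, LinearMap.add_apply, C.alt, zero_add, add_zero] at h
  rw [eq_neg_iff_add_eq_zero]
  rw [← h]
  ring

theorem m2_T_eq (a b : ι → D → K) (x : ι → K)
    (h : ∀ i (α β : K), α • a i + β • b i = 0 → α = 0 ∧ β = 0) (φ : D → K) :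
    (conf a b x h).T φ = fnl (-(tmat a b x *ᵥ φ)) := by
  refine LinearMap.ext fun φ' => ?_
  rw [m2_skew, m2_T_apply, fnl_apply, neg_dotProduct, dotProduct_comm]

theorem m2_rnk (a b : ι → D → K) (x : ι → K)
    (h : ∀ i (α β : K), α • a i + β • b i = 0 → α = 0 ∧ β = 0) :
    finrank K (conf a b x h).R = (tmat a b x).rank := by
  have h1 : (conf a b x h).T = (dotProductEquiv K D).toLinearMap ∘ₗ (-(tmat a b x).mulVecLin) := by
    refine LinearMap.ext fun φ => ?_
    rw [m2_T_eq]
    rfl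
  unfold Conf.R Matrix.rank
  rw [h1, LinearMap.range_comp, LinearMap.range_neg]
  exact LinearEquiv.finrank_map_eq _ _

theorem m2_ker (C : Conf K (D → K) ι) : C.R.dualCoannihilator = LinearMap.ker C.T := by
  ext φ
  rw [Submodule.mem_dualCoannihilator, LinearMap.mem_ker]
  constructor
  · intro h
    refine LinearMap.ext fun φ' => ?_
    rw [m2_skew, h _ ⟨φ', rfl⟩, neg_zero, LinearMap.zero_apply]
  · rintro h _ ⟨φ', rfl⟩
    rw [m2_skew, h, LinearMap.zero_apply, neg_zero]

theorem m2_finrank_line (C : Conf K (D → K) ι) (i : ι) : finrank K (C.line i) = 2 := by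
  have hli : LinearIndependent K ![C.a i, C.b i] := by
    rw [LinearIndependent.pair_iff]
    exact C.ind i
  have h1 := finrank_span_eq_card hli
  have h2 : Set.range ![C.a i, C.b i] = {C.a i, C.b i} := by
    simp [Matrix.range_cons, Matrix.range_empty]
    exact Set.pair_comm _ _
  rw [h2, Fintype.card_fin] at h1
  exact h1

theorem m2_mem_line (C : Conf K (D → K) ι) (i : ι) (f : Dual K (D → K)) :
    f ∈ C.line i ↔ ∃ α β : K, α • C.a i + β • C.b i = f := Submodule.mem_span_pair

theorem m2_one (C : Conf K (D → K) ι) {i : ι} (hi : i ∈ C.one) :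
    finrank K (C.line i ⊓ C.R : Submodule K (Dual K (D → K))) = 1 := by
  classical
  unfold Conf.one at hi
  exact (Finset.mem_filter.1 hi).2

/-- the common orthogonal space of the range and the line -/
theorem m2_dimN (C : Conf K (D → K) ι) {i : ι} (hi : i ∈ C.one) :
    finrank K (C.R ⊔ C.line i).dualCoannihilator + (finrank K C.R + 1) = Fintype.card D := by
  have h1 := Submodule.finrank_sup_add_finrank_inf_eq C.R (C.line i)
  rw [inf_comm, m2_one C hi, m2_finrank_line] at h1
  have h2 := Subspace.finrank_add_finrank_dualCoannihilator_eq (C.R ⊔ C.line i)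
  rw [Module.finrank_fintype_fun_eq_card] at h2
  omega

/-- no vertical kernel vectors if adjacent -/
theorem m2_adj_zero (C : Conf K (D → K) ι) {i k : ι} (hk : k ∈ C.one)
    (hadj : C.adj i k) {x : D → K} {α β : K} (hx : C.T x = α • C.a k + β • C.b k)
    (ha : C.a i x = 0) (hb : C.b i x = 0) : α = 0 ∧ β = 0 := by
  obtain ⟨ψ, φ, hψ, hφ, hne⟩ := hadj
  by_contra hcon
  have hx0 : C.T x ≠ 0 := fun h0 => hcon (C.ind k α β (by rw [← hx, h0]))
  have h1 := m2_one C hk
  have hm1 : C.T x ∈ C.line k ⊓ C.R := ⟨(m2_mem_line C k _).2 ⟨α, β, hx.symm⟩, ⟨x, rfl⟩⟩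
  have hm2 : C.T φ ∈ C.line k ⊓ C.R := ⟨hφ, ⟨φ, rfl⟩⟩
  obtain ⟨c, hc⟩ := (finrank_eq_one_iff_of_nonzero' (⟨C.T x, hm1⟩ : (C.line k ⊓ C.R :
    Submodule K (Dual K (D → K)))) (by
      intro h0
      exact hx0 (congrArg Subtype.val h0))).1 h1 ⟨C.T φ, hm2⟩
  have hc' : c • C.T x = C.T φ := congrArg Subtype.val hc
  apply hne
  rw [m2_skew, ← hc', LinearMap.smul_apply, m2_skew]
  obtain ⟨γ, δ, hγ⟩ := (m2_mem_line C i _).1 hψ
  rw [← hγ, LinearMap.add_apply, LinearMap.smul_apply, LinearMap.smul_apply, ha, hb]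
  simp

/-- a vertical kernel vector if not adjacent -/
theorem m2_not_adj (C : Conf K (D → K) ι) {i k : ι} (hi : i ∈ C.one) (hk : k ∈ C.one)
    (hadj : ¬ C.adj i k) : ∃ (x : D → K) (α β : K), C.T x = α • C.a k + β • C.b k ∧
      C.a i x = 0 ∧ C.b i x = 0 ∧ ¬ (α = 0 ∧ β = 0) := by
  have hone : ∀ j ∈ C.one, ∃ φ, C.T φ ∈ C.line j ∧ C.T φ ≠ 0 := by
    intro j hj
    have h1 := m2_one C hj
    have : Nontrivial (C.line j ⊓ C.R : Submodule K (Dual K (D → K))) :=
      Module.nontrivial_of_finrank_pos (R := K) (by rw [h1]; norm_num)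
    obtain ⟨⟨f, hf⟩, hf0⟩ := exists_ne (0 : (C.line j ⊓ C.R : Submodule K (Dual K (D → K))))
    obtain ⟨φ, rfl⟩ := hf.2
    exact ⟨φ, hf.1, fun h => hf0 (Subtype.ext h)⟩
  obtain ⟨ψ, hψ, hψ0⟩ := hone i hi
  obtain ⟨φ, hφ, hφ0⟩ := hone k hk
  have hzero : C.T ψ φ = 0 := by
    by_contra hne
    exact hadj ⟨ψ, φ, hψ, hφ, hne⟩
  have hmem : φ ∈ (C.R ⊓ C.line i).dualCoannihilator := by
    rw [Submodule.mem_dualCoannihilator]
    intro f hf
    have hf' : f ∈ C.line i ⊓ C.R := ⟨hf.2, hf.1⟩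
    have hm1 : C.T ψ ∈ C.line i ⊓ C.R := ⟨hψ, ⟨ψ, rfl⟩⟩
    obtain ⟨c, hc⟩ := (finrank_eq_one_iff_of_nonzero' (⟨C.T ψ, hm1⟩ : (C.line i ⊓ C.R :
      Submodule K (Dual K (D → K)))) (by
        intro h0
        exact hψ0 (congrArg Subtype.val h0))).1 (m2_one C hi) ⟨f, hf'⟩
    have hc' : c • C.T ψ = f := congrArg Subtype.val hc
    rw [← hc', LinearMap.smul_apply, hzero, smul_zero]
  have heq : (C.R ⊓ C.line i).dualCoannihilator =
      C.R.dualCoannihilator ⊔ (C.line i).dualCoannihilator := by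
    have e1 : C.R ⊓ C.line i =
        (C.R.dualCoannihilator ⊔ (C.line i).dualCoannihilator).dualAnnihilator := by
      rw [Submodule.dualAnnihilator_sup_eq, Subspace.dualCoannihilator_dualAnnihilator_eq,
        Subspace.dualCoannihilator_dualAnnihilator_eq]
    rw [e1, Subspace.dualAnnihilator_dualCoannihilator_eq]
  rw [heq, Submodule.mem_sup] at hmem
  obtain ⟨κ, hκ, x, hx, hsum⟩ := hmem
  rw [m2_ker, LinearMap.mem_ker] at hκ
  rw [Submodule.mem_dualCoannihilator] at hx
  have hTx : C.T x = C.T φ := by rw [← hsum, map_add, hκ, zero_add]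
  obtain ⟨α, β, hαβ⟩ := (m2_mem_line C k _).1 hφ
  refine ⟨x, α, β, by rw [hTx, hαβ], hx _ ?_, hx _ ?_, ?_⟩
  · exact (m2_mem_line C i _).2 ⟨1, 0, by simp⟩
  · exact (m2_mem_line C i _).2 ⟨0, 1, by simp⟩
  · rintro ⟨rfl, rfl⟩
    apply hφ0
    rw [← hαβ]
    simp

/-- the kernel of the bordered matrix -/
theorem m2_mem_ker (a b : ι → D → K) (x : ι → K)
    (h : ∀ i (α β : K), α • a i + β • b i = 0 → α = 0 ∧ β = 0) (i k : ι)
    (z : D → K) (u : Fin 2 → K) :
    (fromBlocks (tmat a b x) (cols a b k) (cols a b i)ᵀ 0) *ᵥ (Sum.elim z u) = 0 ↔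
      ((conf a b x h).T z = u 0 • (conf a b x h).a k + u 1 • (conf a b x h).b k ∧
        (conf a b x h).a i z = 0 ∧ (conf a b x h).b i z = 0) := by
  rw [fromBlocks_mulVec]
  have hcol : cols a b k *ᵥ u = u 0 • a k + u 1 • b k := by
    ext w
    simp [cols, Matrix.mulVec, dotProduct, Fin.sum_univ_two]
    ring
  have hrow : (cols a b i)ᵀ *ᵥ z = ![a i ⬝ᵥ z, b i ⬝ᵥ z] := by
    ext j
    fin_cases j <;> simp [cols, Matrix.mulVec, dotProduct]
  have hz1 : (Sum.elim z u ∘ Sum.inl : D → K) = z := rfl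
  have hz2 : (Sum.elim z u ∘ Sum.inr : Fin 2 → K) = u := rfl
  rw [hz1, hz2, hcol, hrow, Matrix.zero_mulVec, add_zero, m2_T_eq]
  have e1 : (u 0 • (conf a b x h).a k + u 1 • (conf a b x h).b k) = fnl (u 0 • a k + u 1 • b k) := by
    unfold fnl
    rw [map_add, map_smul, map_smul]
    rfl
  rw [e1]
  have e2 : (fnl (-(tmat a b x *ᵥ z)) = fnl (u 0 • a k + u 1 • b k)) ↔
      tmat a b x *ᵥ z + (u 0 • a k + u 1 • b k) = 0 := by
    unfold fnl
    rw [(dotProductEquiv K D).injective.eq_iff]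
    constructor
    · intro h'
      rw [← h', add_neg_cancel]
    · intro h'
      exact (eq_neg_of_add_eq_zero_right h').symm
  rw [e2]
  constructor
  · intro h'
    refine ⟨?_, ?_, ?_⟩
    · ext w
      exact congrFun h' (Sum.inl w)
    · exact congrFun h' (Sum.inr 0)
    · exact congrFun h' (Sum.inr 1)
  · rintro ⟨h1, h2, h3⟩
    ext w
    rcases w with w | w
    · exact congrFun h1 w
    · fin_cases w
      · exact h2
      · exact h3

theorem conf_adj (a b : ι → D → K) (x : ι → K)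
    (h : ∀ i (α β : K), α • a i + β • b i = 0 → α = 0 ∧ β = 0) {i k : ι}
    (hi : i ∈ (conf a b x h).one) (hk : k ∈ (conf a b x h).one) :
    (conf a b x h).adj i k ↔
      (fromBlocks (tmat a b x) (cols a b k) (cols a b i)ᵀ 0).rank = (tmat a b x).rank + 3 := by
  set C := conf a b x h with hC
  set M := fromBlocks (tmat a b x) (cols a b k) (cols a b i)ᵀ 0 with hM
  have hrn : M.rank + finrank K (LinearMap.ker M.mulVecLin) = Fintype.card D + 2 := by
    have h1 := LinearMap.finrank_range_add_finrank_ker M.mulVecLin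
    rw [Module.finrank_fintype_fun_eq_card, Fintype.card_sum, Fintype.card_fin] at h1
    exact h1
  -- projection to the last two coordinates
  set π : LinearMap.ker M.mulVecLin →ₗ[K] (Fin 2 → K) :=
    (LinearMap.funLeft K K (Sum.inr : Fin 2 → D ⊕ Fin 2)) ∘ₗ (LinearMap.ker M.mulVecLin).subtype
    with hπ
  have hker : finrank K (LinearMap.ker π) = finrank K (C.R ⊔ C.line i).dualCoannihilator := by
    have hN : ∀ z : D → K, z ∈ (C.R ⊔ C.line i).dualCoannihilator ↔
        M *ᵥ (Sum.elim z 0) = 0 := by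
      intro z
      rw [hM, m2_mem_ker a b x h i k z 0]
      rw [Submodule.dualCoannihilator_sup_eq, Submodule.mem_inf, m2_ker, LinearMap.mem_ker,
        Submodule.mem_dualCoannihilator]
      simp only [Pi.zero_apply, zero_smul, add_zero]
      refine and_congr Iff.rfl ⟨fun h' => ⟨h' _ ?_, h' _ ?_⟩, fun h' f hf => ?_⟩
      · exact (m2_mem_line C i _).2 ⟨1, 0, by simp [hC]⟩
      · exact (m2_mem_line C i _).2 ⟨0, 1, by simp [hC]⟩
      · obtain ⟨α, β, rfl⟩ := (m2_mem_line C i _).1 hf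
        rw [LinearMap.add_apply, LinearMap.smul_apply, LinearMap.smul_apply, h'.1, h'.2]
        simp
    refine (LinearEquiv.finrank_eq (LinearEquiv.ofBijective
      ({ toFun := fun z => ⟨⟨Sum.elim z.1 0, by
            rw [LinearMap.mem_ker, Matrix.mulVecLin_apply]
            exact (hN z.1).1 z.2⟩, by
            rw [LinearMap.mem_ker]
            rfl⟩
         map_add' := fun z z' => by
            apply Subtype.ext
            apply Subtype.ext
            ext w
            rcases w with w | w <;> simp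
         map_smul' := fun c z => by
            apply Subtype.ext
            apply Subtype.ext
            ext w
            rcases w with w | w <;> simp } :
        (C.R ⊔ C.line i).dualCoannihilator →ₗ[K] LinearMap.ker π) ⟨?_, ?_⟩)).symm
    · intro z z' hzz
      apply Subtype.ext
      have h1 := congrArg (fun q : LinearMap.ker π => (q.1.1 : D ⊕ Fin 2 → K)) hzz
      ext w
      exact congrFun h1 (Sum.inl w)
    · rintro ⟨⟨q, hq⟩, hq2⟩
      rw [LinearMap.mem_ker] at hq2
      have hq3 : q = Sum.elim (q ∘ Sum.inl) 0 := by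
        ext w
        rcases w with w | w
        · rfl
        · exact congrFun hq2 w
      refine ⟨⟨q ∘ Sum.inl, ?_⟩, ?_⟩
      · rw [hN, ← hq3]
        rw [LinearMap.mem_ker, Matrix.mulVecLin_apply] at hq
        exact hq
      · apply Subtype.ext
        apply Subtype.ext
        exact hq3.symm
  have hsum := LinearMap.finrank_range_add_finrank_ker π
  have hdim := m2_dimN C hi
  have hR : finrank K C.R = (tmat a b x).rank := m2_rnk a b x h
  rw [hR] at hdim
  rw [hker] at hsum
  constructor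
  · intro hadj
    have hr0 : LinearMap.range π = ⊥ := by
      rw [LinearMap.range_eq_bot]
      refine LinearMap.ext fun q => ?_
      obtain ⟨q, hq⟩ := q
      rw [LinearMap.mem_ker, Matrix.mulVecLin_apply] at hq
      have hq3 : q = Sum.elim (q ∘ Sum.inl) (q ∘ Sum.inr) := by
        ext w
        rcases w with w | w <;> rfl
      rw [hq3, hM, m2_mem_ker a b x h i k] at hq
      obtain ⟨h1, h2, h3⟩ := hq
      obtain ⟨e0, e1⟩ := m2_adj_zero C hk hadj h1 h2 h3
      ext j
      fin_cases j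
      · exact e0
      · exact e1
    rw [hr0, finrank_bot] at hsum
    omega
  · intro hrank
    by_contra hadj
    obtain ⟨z, α, β, h1, h2, h3, h4⟩ := m2_not_adj C hi hk hadj
    have hz : Sum.elim z ![α, β] ∈ LinearMap.ker M.mulVecLin := by
      rw [LinearMap.mem_ker, Matrix.mulVecLin_apply, hM, m2_mem_ker a b x h i k]
      exact ⟨h1, h2, h3⟩
    have hpos : 0 < finrank K (LinearMap.range π) := by
      rw [Module.finrank_pos_iff, Submodule.nontrivial_iff_ne_bot]
      intro hbot
      rw [LinearMap.range_eq_bot] at hbot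
      have h5 := congrArg (fun g : LinearMap.ker M.mulVecLin →ₗ[K] (Fin 2 → K) =>
        g ⟨Sum.elim z ![α, β], hz⟩) hbot
      apply h4
      exact ⟨congrFun h5 0, congrFun h5 1⟩
    omega

end Pool.Agent.Helper36.LM
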